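import Mathlib
import Pool.Agent.Lib.MP_386e47_ag_h1L.F4

set_option autoImplicit false

namespace Pool.Agent.Results.MP_386e47_ag.AllDegrees

open Pool.Agent.Lib.MP_386e47_ag_h1L

/-- For the Fermat hypersurfaces of odd dimension `2 * l - 1 ≥ 3` and every degree `m`: all but
`C * m ^ (l - 2)` of the characters of level one are equivalent, modulo the group generated by the
characters of level zero with at most four entries and the Hasse-Davenport tuples, to a triple or to
a 5-tuple on a stable line; there are at least `(m - 1) ^ l * (m - 2)` characters of level one. -/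
theorem result (l : ℕ) (hl : 2 ≤ l) : ∃ C : ℕ, ∀ m : ℕ, 1 ≤ m →
    {a : Fin (2 * l + 1) → QZ | (∀ i, m • a i = 0) ∧ LevelOne a ∧ ¬ Known a}.encard ≤
      ((C * m ^ (l - 2) : ℕ) : ℕ∞) ∧
    (((m - 1) ^ l * (m - 2) : ℕ) : ℕ∞) ≤
      {a : Fin (2 * l + 1) → QZ | (∀ i, m • a i = 0) ∧ LevelOne a}.encard := by
  obtain ⟨C, hC⟩ := main l hl
  exact ⟨C, fun m hm => ⟨hC m hm, lower l (by omega) m hm⟩⟩

end Pool.Agent.Results.MP_386e47_ag.AllDegrees
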