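import Pool.Agent.Lib.CMN.FinThm
import Pool.Agent.Lib.CMN.Coniv

/-!
CM types and compact quotients of the complex `n`-ball: the general Hodge conjecture for CM types.

`F ≠ ℚ` is a totally real number field, `v₁` a real place of `F`, `D` a totally positive element of
the ring of integers, `E = F(√-D)`. A CM type of `E` is a sign vector. `Quot v₁ D Φ Ψ` says that
`2n` CM types come from `2n` closed holomorphic theta one-forms, with a nonzero integral, on one
compact arithmetic quotient of the `n`-ball. See `Pool.Agent.Lib.CMN.Defs` for the definitions.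
-/

set_option autoImplicit false

open Pool.Agent.CMN

namespace Pool.Agent.Lib.MP_386e47_old.CMConiveau

/-- Every multiset `m` of `2 * k + l` CM types of `E` with at least `k` times `true` and at least
`k` times `false` at every place has a multiset `m'` of `l` CM types with `k` fewer `true` at every
place such that `m` and the conjugates of the members of `m'` are the CM types `Φ i`, `Ψ i` of one
compact quotient of the `(k + l)`-ball. -/
theorem result (F : Type) [Field F] [NumberField F] [NumberField.IsTotallyReal F] (v₁ : F →+* ℝ)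
    (D : F) (hD : IsIntegral ℤ D) (hpos : ∀ v : F →+* ℝ, 0 < v D) (hF : ∃ v : F →+* ℝ, v ≠ v₁)
    (k l : ℕ) (hkl : 0 < k + l) (m : Multiset (CMType F)) (hcard : m.card = 2 * k + l)
    (hm : ∀ v : F →+* ℝ, k ≤ m.countP (fun Φ => Φ v = true) ∧
      k ≤ m.countP (fun Φ => Φ v = false)) :
    ∃ (m' : Multiset (CMType F)) (Φ Ψ : Fin (k + l) → CMType F), m'.card = l ∧
      (∀ v : F →+* ℝ, m.countP (fun Φ => Φ v = true) = m'.countP (fun Φ => Φ v = true) + k) ∧
      m + m'.map bar = Finset.univ.val.map Φ + Finset.univ.val.map Ψ ∧
      (∀ i, Φ i v₁ = true) ∧ (∀ i, Ψ i v₁ = false) ∧ Quot v₁ D Φ Ψ :=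
  coniveau_of quot F v₁ D hD hpos hF k l hkl m hcard hm

end Pool.Agent.Lib.MP_386e47_old.CMConiveau
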