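import Mathlib
import Pool.Agent.Lib.MP_938ce2_ag_h82.R21
import Pool.Agent.Lib.MP_938ce2_ag_h60.NumField

/-!
The classes of high coniveau on the powers of almost all abelian varieties with complex
multiplication by arbitrary CM fields.
-/

set_option autoImplicit false

namespace Pool.Agent.Results.MP_386e47_ag.ConiveauAlmostLinear

open NumberField
open Pool.Agent.Lib.MP_938ce2_ag_h60 (CMType Emb conj)
open Pool.Agent.Lib.MP_386e47_ag_h1 (ConiveauByDivisors)

/-- `E i` are CM fields of degree at least `2h`, the sum of their degrees is `2g`, and `L` is a Galois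
CM field which contains them, for instance the Galois closure of their compositum. `Emb L E` is the
set of the `2g` embeddings of the `E i` in `L`. The `2 ^ g` CM types contain one embedding of each
pair of complex conjugate ones. -/
theorem result :
    ∀ (L : Type) [Field L] [NumberField L] [IsGalois ℚ L] [IsCMField L] (ι : Type) [Fintype ι]
      (E : ι → Type) [∀ i, Field (E i)] [∀ i, NumberField (E i)] [∀ i, IsCMField (E i)]
      [∀ i, Nonempty (E i →ₐ[ℚ] L)] (g h ℓ K : ℕ),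
      ∑ i, Module.finrank ℚ (E i) = 2 * g → (∀ i, 2 * h ≤ Module.finrank ℚ (E i)) →
      ((ℓ : ℝ) + 2 * K) * Real.log (2 * g) ^ 4 ≤ h / 10 ^ 10 →
      ({Φ : Finset (Emb L E) | CMType (conj L) Φ ∧
          ¬ ConiveauByDivisors (L ≃ₐ[ℚ] L) (conj L) ℓ K Φ}.ncard : ℝ)
        ≤ (Real.exp (-((h : ℝ) / (10 ^ 10 * (ℓ + 2 * K) * Real.log (2 * g))))
          + if ℓ ≤ 1 then 0 else (2 * (g : ℝ)) ^ (2 * ℓ ^ 2)
            * (1 - 1 / 2 ^ (ℓ + 1)) ^ ((h : ℝ) / ((ℓ + 2) * ℓ ^ 2))) * 2 ^ g := by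
  intro L _ _ _ _ ι _ E _ _ _ _ g h ℓ K hg hh hc
  classical
  refine Pool.Agent.Lib.MP_938ce2_ag_h82.theorem2
    (fun γ => Pool.Agent.Lib.MP_938ce2_ag_h60.conj_comm γ)
    Pool.Agent.Lib.MP_938ce2_ag_h60.conj_mul_self ℓ K ?_ ?_ hc
  · rw [Pool.Agent.Lib.MP_938ce2_ag_h60.card_emb_sigma, hg]
  · intro x
    rw [Pool.Agent.Lib.MP_938ce2_ag_h60.ncard_orbit_emb]
    exact hh x.1

end Pool.Agent.Results.MP_386e47_ag.ConiveauAlmostLinear
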