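import Mathlib

/-!
Cyclic covers of projective space: which ones are CM twists of `h¹` of an abelian variety?
-/

set_option autoImplicit false

namespace Pool.Agent.Lib.MP_386e47_old.CyclicCovers1

/-- `S → ℙⁿ` is the cyclic cover of order `m ∣ d` branched along a smooth hypersurface of degree
`d`.  The part of `Hⁿ(S, ℂ)` on which the covering group acts by the character `u` has
`h^(n+1-q, q-1) ≠ 0` exactly if `q = u/m + ∑ a_i/d` for some `0 < a_i < d` (Griffiths; the number
of such `a` is the Hodge number). -/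
def Hodge (n d m u q : ℕ) : Prop :=
  ∃ a : Fin (n + 1) → ℕ, (∀ i, 0 < a i ∧ a i < d) ∧ m * ∑ i, a i + u * d = q * (d * m)

/-- `t u = p - q`, `(p, q)` the Hodge type at the unit `u` of an invertible CM motive with
coefficients in `ℚ(ζ_m)` (its weight `p + q` does not depend on `u`). -/
def IsTwist (m : ℕ) (t : ℕ → ℤ) : Prop :=
  ∀ u < m, u.Coprime m → t (m - u) = -t u ∧ ∀ v < m, v.Coprime m → 2 ∣ t u - t v

/-- The twist by `t` of the part `V` on which the covering group acts by faithful characters has
level at most one. -/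
def LevelOne (n d m : ℕ) (t : ℕ → ℤ) : Prop :=
  ∀ u < m, u.Coprime m → ∀ q, Hodge n d m u q → |(n : ℤ) + 2 - 2 * q + t u| ≤ 1

/-- The list. -/
def list : List (ℕ × ℕ × ℕ) :=
  [(2, 3, 3), (2, 4, 2), (2, 4, 4), (2, 5, 5), (2, 6, 3), (2, 6, 6), (2, 8, 4), (2, 12, 6),
   (3, 3, 3), (3, 4, 2), (3, 4, 4), (3, 6, 2), (4, 3, 3), (5, 3, 3)]

/-! ### Hodge numbers: an interval -/

lemma sum_exists (N d : ℕ) (hd : 2 ≤ d) : ∀ s : ℕ, N ≤ s → s ≤ N * (d - 1) →
    ∃ a : Fin N → ℕ, (∀ i, 0 < a i ∧ a i < d) ∧ ∑ i, a i = s := by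
  induction N with
  | zero =>
    intro s _ h2
    exact ⟨fun _ => 1, fun i => i.elim0, by simp at h2 ⊢; omega⟩
  | succ N ih =>
    intro s h1 h2
    rw [Nat.succ_mul] at h2
    by_cases h : s - 1 ≤ N * (d - 1)
    · obtain ⟨a, ha, hs⟩ := ih (s - 1) (by omega) h
      refine ⟨Fin.cons 1 a, ?_, ?_⟩
      · intro i
        refine Fin.cases ?_ ?_ i
        · simp only [Fin.cons_zero]; omega
        · intro j; simpa using ha j
      · rw [Fin.sum_univ_succ]
        simp only [Fin.cons_zero, Fin.cons_succ, hs]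
        omega
    · obtain ⟨a, ha, hs⟩ := ih (N * (d - 1)) (Nat.le_mul_of_pos_right _ (by omega)) le_rfl
      refine ⟨Fin.cons (s - N * (d - 1)) a, ?_, ?_⟩
      · intro i
        refine Fin.cases ?_ ?_ i
        · simp only [Fin.cons_zero]; omega
        · intro j; simpa using ha j
      · rw [Fin.sum_univ_succ]
        simp only [Fin.cons_zero, Fin.cons_succ, hs]
        omega

/-- With `d = m k`, the type `q` occurs at `u` iff `n + 1 ≤ q d - u k ≤ (n + 1) (d - 1)`. -/
lemma hodge_iff (n m k u q : ℕ) (hm : 0 < m) (hd : 2 ≤ m * k) :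
    Hodge n (m * k) m u q ↔ n + 1 + u * k ≤ q * (m * k) ∧
      q * (m * k) ≤ (n + 1) * (m * k - 1) + u * k := by
  constructor
  · rintro ⟨a, ha, h⟩
    have h' : ∑ i, a i + u * k = q * (m * k) := by
      refine Nat.eq_of_mul_eq_mul_left hm ?_
      calc m * (∑ i, a i + u * k) = m * ∑ i, a i + u * (m * k) := by ring
        _ = q * (m * k * m) := h
        _ = m * (q * (m * k)) := by ring
    rw [← h']
    have h1 : n + 1 ≤ ∑ i, a i := by
      calc n + 1 = ∑ _i : Fin (n + 1), 1 := by simp
        _ ≤ _ := Finset.sum_le_sum fun i _ => (ha i).1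
    have h2 : ∑ i, a i ≤ (n + 1) * (m * k - 1) := by
      calc ∑ i, a i ≤ ∑ _i : Fin (n + 1), (m * k - 1) :=
            Finset.sum_le_sum fun i _ => by have := (ha i).2; omega
        _ = _ := by simp
    omega
  · rintro ⟨h1, h2⟩
    obtain ⟨a, ha, hs⟩ := sum_exists (n + 1) (m * k) hd (q * (m * k) - u * k)
      (by omega) (by omega)
    refine ⟨a, ha, ?_⟩
    have h3 : ∑ i, a i + u * k = q * (m * k) := by omega
    calc m * ∑ i, a i + u * (m * k) = m * (∑ i, a i + u * k) := by ring
      _ = m * (q * (m * k)) := by rw [h3]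
      _ = q * (m * k * m) := by ring

lemma not_three {n d m u x y z : ℕ} (h : {q | Hodge n d m u q}.encard ≤ 2)
    (hx : Hodge n d m u x) (hy : Hodge n d m u y) (hz : Hodge n d m u z) (hxy : x ≠ y)
    (hyz : y ≠ z) (hxz : x ≠ z) : False := by
  have h3 : ({x, y, z} : Set ℕ) ⊆ {q | Hodge n d m u q} := by
    intro t ht
    simp only [Set.mem_insert_iff, Set.mem_singleton_iff] at ht
    rcases ht with rfl | rfl | rfl <;> assumption
  have h4 := (Set.encard_le_encard h3).trans h
  rw [Set.encard_insert_of_notMem (by simp [hxy, hxz]), Set.encard_pair hyz] at h4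
  exact absurd h4 (by norm_num)

lemma atMostTwo_of_levelOne {n d m : ℕ} {t : ℕ → ℤ} (h : LevelOne n d m t) (u : ℕ) (hu : u < m)
    (hc : u.Coprime m) : {q | Hodge n d m u q}.encard ≤ 2 := by
  have : {q | Hodge n d m u q} ⊆
      ({(((n : ℤ) + 2 + t u) / 2).toNat, (((n : ℤ) + 2 + t u + 1) / 2).toNat} : Set ℕ) := by
    intro q hq
    have h1 := h u hu hc q hq
    rw [abs_le] at h1
    simp only [Set.mem_insert_iff, Set.mem_singleton_iff]
    omega
  refine (Set.encard_le_encard this).trans ?_
  refine (Set.encard_insert_le _ _).trans ?_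
  rw [Set.encard_singleton]
  norm_num

/-! ### At most two types: the list -/

/-- three consecutive types -/
lemma three {n m k u : ℕ} (hm : 0 < m) (hd : 2 ≤ m * k) (q : ℕ)
    (h0 : n + 1 + u * k ≤ q * (m * k))
    (h2 : (q + 2) * (m * k) ≤ (n + 1) * (m * k - 1) + u * k)
    (h : {q | Hodge n (m * k) m u q}.encard ≤ 2) : False := by
  have e1 : (q + 1) * (m * k) = q * (m * k) + m * k := by ring
  have e2 : (q + 2) * (m * k) = q * (m * k) + m * k + m * k := by ring
  refine not_three h (x := q) (y := q + 1) (z := q + 2) ?_ ?_ ?_ (by omega) (by omega) (by omega)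
  all_goals
    rw [hodge_iff n m k u _ hm hd]
    constructor <;> omega

/-- a long range contains three types -/
lemma bound {n m k u : ℕ} (hm : 0 < m) (hd : 3 ≤ m * k)
    (h : {q | Hodge n (m * k) m u q}.encard ≤ 2) : ((n : ℤ) - 2) * ((m * k : ℕ) - 2) ≤ 4 := by
  by_contra hcon
  push Not at hcon
  refine three hm (by omega) ((n + u * k) / (m * k) + 1) ?_ ?_ h
  · have h1 := Nat.lt_div_mul_add (a := n + u * k) (b := m * k) (by omega)
    have h2 : ((n + u * k) / (m * k) + 1) * (m * k) = (n + u * k) / (m * k) * (m * k) + m * k := by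
      ring
    omega
  · have h1 := Nat.div_mul_le_self (n + u * k) (m * k)
    have h2 : ((n + u * k) / (m * k) + 1 + 2) * (m * k) =
        (n + u * k) / (m * k) * (m * k) + 3 * (m * k) := by ring
    rw [h2]
    have h3 : 3 * (m * k) + n ≤ (n + 1) * (m * k - 1) := by
      zify [show 1 ≤ m * k by omega]
      push_cast at hcon
      nlinarith
    omega

/-- case `n = 2` -/
lemma two_bound {m k u : ℕ} (hd : 3 ≤ m * k) (hu : u < m)
    (h : {q | Hodge 2 (m * k) m u q}.encard ≤ 2) : u * k ≤ 2 ∨ (m - u) * k ≤ 2 := by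
  by_contra hcon
  push Not at hcon
  obtain ⟨h1, h2⟩ := hcon
  have h3 : (m - u) * k + u * k = m * k := by rw [← add_mul]; congr 1; omega
  refine three (by omega) (by omega) 1 ?_ ?_ h
  · omega
  · omega

lemma unit_mid {m : ℕ} (hm : 7 ≤ m) : ∃ u, u < m ∧ u.Coprime m ∧ 3 ≤ u ∧ u + 3 ≤ m := by
  rcases Nat.even_or_odd' m with ⟨t, rfl | rfl⟩
  · rcases Nat.even_or_odd' t with ⟨s, rfl | rfl⟩
    · refine ⟨2 * s - 1, by omega, ?_, by omega, by omega⟩
      have h1 : (2 * s - 1).Coprime 2 := by
        rw [Nat.coprime_two_right]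
        exact ⟨s - 1, by omega⟩
      have h2 : (2 * s - 1).Coprime (2 * s) := by
        have : (2 * s - 1).Coprime (2 * s - 1 + 1) := by simp
        rwa [Nat.sub_add_cancel (by omega)] at this
      exact Nat.Coprime.mul_right h1 h2
    · refine ⟨2 * s - 1, by omega, ?_, by omega, by omega⟩
      have h1 : (2 * s - 1).Coprime 2 := by
        rw [Nat.coprime_two_right]
        exact ⟨s - 1, by omega⟩
      have h2 : (2 * s - 1).Coprime (2 * s + 1) := by
        have : (2 * s - 1).Coprime (2 + (2 * s - 1)) := by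
          rw [Nat.coprime_add_self_right]
          exact h1
        have e : 2 + (2 * s - 1) = 2 * s + 1 := by omega
        rwa [e] at this
      exact Nat.Coprime.mul_right h1 h2
  · refine ⟨t, by omega, ?_, by omega, by omega⟩
    have : t.Coprime (1 + 2 * t) := by
      rw [Nat.coprime_add_mul_right_right]
      exact Nat.coprime_one_right t
    rwa [add_comm] at this

lemma mem_list_of_atMostTwo {n d m : ℕ} (hn : 2 ≤ n) (hd : 3 ≤ d) (hm : 2 ≤ m) (hmd : m ∣ d)
    (h : ∀ u < m, u.Coprime m → {q | Hodge n d m u q}.encard ≤ 2) : (n, d, m) ∈ list := by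
  obtain ⟨k, rfl⟩ := hmd
  have hk : 0 < k := by
    rcases Nat.eq_zero_or_pos k with rfl | hk
    · omega
    · exact hk
  have h1 := h 1 (by omega) (Nat.coprime_one_left m)
  rcases Nat.lt_or_ge n 3 with h3 | h3
  · obtain rfl : n = 2 := by omega
    have hb : ∀ u < m, u.Coprime m → u * k ≤ 2 ∨ (m - u) * k ≤ 2 := fun u hu hc =>
      two_bound hd hu (h u hu hc)
    have hk2 : k ≤ 2 := by
      rcases hb 1 (by omega) (Nat.coprime_one_left m) with h1 | h1
      · omega
      · have : 1 ≤ m - 1 := by omega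
        nlinarith
    have hm6 : m ≤ 6 := by
      by_contra hc
      obtain ⟨u, hu, hc', h3, h4⟩ := unit_mid (m := m) (by omega)
      rcases hb u hu hc' with h1 | h1
      · nlinarith
      · have : 3 ≤ m - u := by omega
        nlinarith
    have h5 : m = 5 → k ≤ 1 := by
      rintro rfl
      rcases hb 2 (by norm_num) (by decide) with h1 | h1 <;> omega
    interval_cases m <;> interval_cases k <;> simp_all [list]
  · have hb := bound (n := n) (u := 1) (by omega) hd h1
    have hn6 : n ≤ 6 := by
      have h2 : (1 : ℤ) ≤ (m * k : ℕ) - 2 := by omega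
      have : (n : ℤ) - 2 ≤ 4 := by nlinarith
      omega
    have hd6 : m * k ≤ 6 := by
      have h2 : (1 : ℤ) ≤ n - 2 := by omega
      have h4 : (0 : ℤ) ≤ (m * k : ℕ) - 2 := by omega
      have : ((m * k : ℕ) : ℤ) - 2 ≤ 4 := by nlinarith
      omega
    have hm6 : m ≤ 6 := by nlinarith
    have hk3 : k ≤ 3 := by nlinarith
    clear h
    interval_cases n <;> interval_cases m <;> interval_cases k <;>
      first
        | (exfalso; omega)
        | exact (three (u := 1) (by omega) (by omega) 1 (by omega) (by omega) h1).elim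
        | exact (three (u := 1) (by omega) (by omega) 2 (by omega) (by omega) h1).elim
        | exact (three (u := 1) (by omega) (by omega) 3 (by omega) (by omega) h1).elim
        | simp [list]

/-! ### The twists of the list -/

/-- the twist: `-1` on the first half for `n = 2, 4`, and `0` for `n = 3, 5` -/
def tw (n m u : ℕ) : ℤ :=
  if n = 2 ∨ n = 4 then (if 2 * u < m then -1 else if m < 2 * u then 1 else 0) else 0

lemma two_mul_ne {m u : ℕ} (hm : m ≠ 2) (hc : u.Coprime m) : 2 * u ≠ m := by
  rintro rfl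
  have : u = 1 := Nat.Coprime.eq_one_of_dvd hc ⟨2, by ring⟩
  omega

lemma isTwist_tw (n m : ℕ) : IsTwist m (tw n m) := by
  intro u hu hc
  refine ⟨?_, ?_⟩
  · unfold tw
    split_ifs <;> omega
  · intro v hv hcv
    rcases eq_or_ne m 2 with rfl | hm
    · have h1 : u = 1 := by
        interval_cases u
        · exact absurd hc (by decide)
        · rfl
      have h2 : v = 1 := by
        interval_cases v
        · exact absurd hcv (by decide)
        · rfl
      subst h1; subst h2; simp
    · have h1 := two_mul_ne hm hc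
      have h2 := two_mul_ne hm hcv
      unfold tw
      split_ifs <;> omega

lemma levelOne_two (n : ℕ) : LevelOne n 2 2 (fun _ => 0) := by
  intro u hu hc q hq
  have hu1 : u = 1 := by
    interval_cases u
    · simp at hc
    · rfl
  subst hu1
  have h := (hodge_iff n 2 1 1 q (by norm_num) (by norm_num)).1 hq
  rw [abs_le]
  beta_reduce
  omega

lemma levelOne_of_mem {n d m : ℕ} (h : (n, d, m) ∈ list) : LevelOne n d m (tw n m) := by
  have key : ∀ m k : ℕ, 0 < m → 2 ≤ m * k → (∀ u < m, u.Coprime m → ∀ q,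
      n + 1 + u * k ≤ q * (m * k) → q * (m * k) ≤ (n + 1) * (m * k - 1) + u * k →
      |(n : ℤ) + 2 - 2 * q + tw n m u| ≤ 1) → LevelOne n (m * k) m (tw n m) := by
    intro m k hm hd h u hu hc q hq
    rw [hodge_iff n m k u q hm hd] at hq
    exact h u hu hc q hq.1 hq.2
  simp only [list, List.mem_cons, Prod.mk.injEq, List.not_mem_nil, or_false] at h
  rcases h with ⟨rfl, rfl, rfl⟩ | ⟨rfl, rfl, rfl⟩ | ⟨rfl, rfl, rfl⟩ | ⟨rfl, rfl, rfl⟩ |
    ⟨rfl, rfl, rfl⟩ | ⟨rfl, rfl, rfl⟩ | ⟨rfl, rfl, rfl⟩ | ⟨rfl, rfl, rfl⟩ | ⟨rfl, rfl, rfl⟩ |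
    ⟨rfl, rfl, rfl⟩ | ⟨rfl, rfl, rfl⟩ | ⟨rfl, rfl, rfl⟩ | ⟨rfl, rfl, rfl⟩ | ⟨rfl, rfl, rfl⟩
  · refine key 3 1 (by norm_num) (by norm_num) ?_
    intro u hu hc q h1 h2
    rw [abs_le]
    interval_cases u <;> first | (exact absurd hc (by decide)) | (simp [tw]; omega)
  · refine key 2 2 (by norm_num) (by norm_num) ?_
    intro u hu hc q h1 h2
    rw [abs_le]
    interval_cases u <;> first | (exact absurd hc (by decide)) | (simp [tw]; omega)
  · refine key 4 1 (by norm_num) (by norm_num) ?_
    intro u hu hc q h1 h2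
    rw [abs_le]
    interval_cases u <;> first | (exact absurd hc (by decide)) | (simp [tw]; omega)
  · refine key 5 1 (by norm_num) (by norm_num) ?_
    intro u hu hc q h1 h2
    rw [abs_le]
    interval_cases u <;> first | (exact absurd hc (by decide)) | (simp [tw]; omega)
  · refine key 3 2 (by norm_num) (by norm_num) ?_
    intro u hu hc q h1 h2
    rw [abs_le]
    interval_cases u <;> first | (exact absurd hc (by decide)) | (simp [tw]; omega)
  · refine key 6 1 (by norm_num) (by norm_num) ?_
    intro u hu hc q h1 h2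
    rw [abs_le]
    interval_cases u <;> first | (exact absurd hc (by decide)) | (simp [tw]; omega)
  · refine key 4 2 (by norm_num) (by norm_num) ?_
    intro u hu hc q h1 h2
    rw [abs_le]
    interval_cases u <;> first | (exact absurd hc (by decide)) | (simp [tw]; omega)
  · refine key 6 2 (by norm_num) (by norm_num) ?_
    intro u hu hc q h1 h2
    rw [abs_le]
    interval_cases u <;> first | (exact absurd hc (by decide)) | (simp [tw]; omega)
  · refine key 3 1 (by norm_num) (by norm_num) ?_
    intro u hu hc q h1 h2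
    rw [abs_le]
    interval_cases u <;> first | (exact absurd hc (by decide)) | (simp [tw]; omega)
  · refine key 2 2 (by norm_num) (by norm_num) ?_
    intro u hu hc q h1 h2
    rw [abs_le]
    interval_cases u <;> first | (exact absurd hc (by decide)) | (simp [tw]; omega)
  · refine key 4 1 (by norm_num) (by norm_num) ?_
    intro u hu hc q h1 h2
    rw [abs_le]
    interval_cases u <;> first | (exact absurd hc (by decide)) | (simp [tw]; omega)
  · refine key 2 3 (by norm_num) (by norm_num) ?_
    intro u hu hc q h1 h2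
    rw [abs_le]
    interval_cases u <;> first | (exact absurd hc (by decide)) | (simp [tw]; omega)
  · refine key 3 1 (by norm_num) (by norm_num) ?_
    intro u hu hc q h1 h2
    rw [abs_le]
    interval_cases u <;> first | (exact absurd hc (by decide)) | (simp [tw]; omega)
  · refine key 3 1 (by norm_num) (by norm_num) ?_
    intro u hu hc q h1 h2
    rw [abs_le]
    interval_cases u <;> first | (exact absurd hc (by decide)) | (simp [tw]; omega)

/-- two adjacent types force the twist -/
lemma forced {n m k u : ℕ} {t : ℕ → ℤ} (hm : 0 < m) (hd : 2 ≤ m * k) (hu : u < m)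
    (hc : u.Coprime m) (h : LevelOne n (m * k) m t) (q : ℕ)
    (h0 : n + 1 + u * k ≤ q * (m * k))
    (h2 : (q + 1) * (m * k) ≤ (n + 1) * (m * k - 1) + u * k) : t u = 2 * q - n - 1 := by
  have e1 : (q + 1) * (m * k) = q * (m * k) + m * k := by ring
  have a1 := h u hu hc q (by rw [hodge_iff n m k u q hm hd]; constructor <;> omega)
  have a2 := h u hu hc (q + 1) (by rw [hodge_iff n m k u (q + 1) hm hd]; constructor <;> omega)
  rw [abs_le] at a1 a2
  push_cast at a1 a2
  omega

lemma forced_of_mem {n d m : ℕ} (h : (n, d, m) ∈ list) {t : ℕ → ℤ} (ht : LevelOne n d m t)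
    (h33 : (n, d, m) ≠ (2, 3, 3)) (u : ℕ) (hu : 2 * u < m) (hc : u.Coprime m) :
    t u = if n = 2 ∨ n = 4 then -1 else 0 := by
  simp only [list, List.mem_cons, Prod.mk.injEq, List.not_mem_nil, or_false] at h
  rcases h with ⟨rfl, rfl, rfl⟩ | ⟨rfl, rfl, rfl⟩ | ⟨rfl, rfl, rfl⟩ | ⟨rfl, rfl, rfl⟩ |
    ⟨rfl, rfl, rfl⟩ | ⟨rfl, rfl, rfl⟩ | ⟨rfl, rfl, rfl⟩ | ⟨rfl, rfl, rfl⟩ | ⟨rfl, rfl, rfl⟩ |
    ⟨rfl, rfl, rfl⟩ | ⟨rfl, rfl, rfl⟩ | ⟨rfl, rfl, rfl⟩ | ⟨rfl, rfl, rfl⟩ | ⟨rfl, rfl, rfl⟩
  · exact absurd rfl h33
  · have : u = 0 := by omega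
    subst this; exact absurd hc (by decide)
  · have hu' : u = 0 ∨ u = 1 := by omega
    rcases hu' with rfl | rfl
    · exact absurd hc (by decide)
    · simpa using forced (k := 1) (by norm_num) (by norm_num) (by norm_num) hc ht 1
        (by norm_num) (by norm_num)
  · have hu' : u = 0 ∨ u = 1 ∨ u = 2 := by omega
    rcases hu' with rfl | rfl | rfl
    · exact absurd hc (by decide)
    · simpa using forced (k := 1) (by norm_num) (by norm_num) (by norm_num) hc ht 1
        (by norm_num) (by norm_num)
    · simpa using forced (k := 1) (by norm_num) (by norm_num) (by norm_num) hc ht 1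
        (by norm_num) (by norm_num)
  · have hu' : u = 0 ∨ u = 1 := by omega
    rcases hu' with rfl | rfl
    · exact absurd hc (by decide)
    · simpa using forced (m := 3) (k := 2) (by norm_num) (by norm_num) (by norm_num) hc ht 1
        (by norm_num) (by norm_num)
  · have hu' : u = 0 ∨ u = 1 ∨ u = 2 := by omega
    rcases hu' with rfl | rfl | rfl
    · exact absurd hc (by decide)
    · simpa using forced (k := 1) (by norm_num) (by norm_num) (by norm_num) hc ht 1
        (by norm_num) (by norm_num)
    · exact absurd hc (by decide)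
  · have hu' : u = 0 ∨ u = 1 := by omega
    rcases hu' with rfl | rfl
    · exact absurd hc (by decide)
    · simpa using forced (m := 4) (k := 2) (by norm_num) (by norm_num) (by norm_num) hc ht 1
        (by norm_num) (by norm_num)
  · have hu' : u = 0 ∨ u = 1 ∨ u = 2 := by omega
    rcases hu' with rfl | rfl | rfl
    · exact absurd hc (by decide)
    · simpa using forced (m := 6) (k := 2) (by norm_num) (by norm_num) (by norm_num) hc ht 1
        (by norm_num) (by norm_num)
    · exact absurd hc (by decide)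
  · have hu' : u = 0 ∨ u = 1 := by omega
    rcases hu' with rfl | rfl
    · exact absurd hc (by decide)
    · simpa using forced (k := 1) (by norm_num) (by norm_num) (by norm_num) hc ht 2
        (by norm_num) (by norm_num)
  · have : u = 0 := by omega
    subst this; exact absurd hc (by decide)
  · have hu' : u = 0 ∨ u = 1 := by omega
    rcases hu' with rfl | rfl
    · exact absurd hc (by decide)
    · simpa using forced (k := 1) (by norm_num) (by norm_num) (by norm_num) hc ht 2
        (by norm_num) (by norm_num)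
  · have : u = 0 := by omega
    subst this; exact absurd hc (by decide)
  · have hu' : u = 0 ∨ u = 1 := by omega
    rcases hu' with rfl | rfl
    · exact absurd hc (by decide)
    · simpa using forced (k := 1) (by norm_num) (by norm_num) (by norm_num) hc ht 2
        (by norm_num) (by norm_num)
  · have hu' : u = 0 ∨ u = 1 := by omega
    rcases hu' with rfl | rfl
    · exact absurd hc (by decide)
    · simpa using forced (k := 1) (by norm_num) (by norm_num) (by norm_num) hc ht 3
        (by norm_num) (by norm_num)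

/-- A cyclic cover of `ℙⁿ`, `n ≥ 2`, of order `m` branched along a smooth hypersurface of degree
`d` has a CM twist of level at most one iff it has at most two Hodge numbers at every unit iff
`(n, d, m)` is in the list; and the twist is forced. -/
theorem result (n d m : ℕ) (hn : 2 ≤ n) (hm : 2 ≤ m) (hmd : m ∣ d) (hd : 0 < d) :
    [∃ t, IsTwist m t ∧ LevelOne n d m t,
     ∀ u < m, u.Coprime m → {q | Hodge n d m u q}.encard ≤ 2,
     d = 2 ∨ (n, d, m) ∈ list].TFAE ∧
    ∀ t, IsTwist m t → LevelOne n d m t → d ≠ 2 → (n, d, m) ≠ (2, 3, 3) →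
      ∀ u, 2 * u < m → u.Coprime m → t u = if n = 2 ∨ n = 4 then -1 else 0 := by
  have h2d : 2 ≤ d := hm.trans (Nat.le_of_dvd hd hmd)
  have h23 : (∀ u < m, u.Coprime m → {q | Hodge n d m u q}.encard ≤ 2) →
      d = 2 ∨ (n, d, m) ∈ list := by
    intro h
    rcases Nat.lt_or_ge d 3 with h3 | h3
    · exact Or.inl (by omega)
    · exact Or.inr (mem_list_of_atMostTwo hn h3 hm hmd h)
  have h12 : ∀ t, LevelOne n d m t →
      ∀ u < m, u.Coprime m → {q | Hodge n d m u q}.encard ≤ 2 :=
    fun t ht u hu hc => atMostTwo_of_levelOne ht u hu hc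
  refine ⟨?_, ?_⟩
  · tfae_have 1 → 2 := fun ⟨t, _, ht⟩ => h12 t ht
    tfae_have 2 → 3 := h23
    tfae_have 3 → 1 := by
      rintro (rfl | h)
      · obtain rfl : m = 2 := le_antisymm (Nat.le_of_dvd hd hmd) hm
        exact ⟨fun _ => 0, fun _ _ _ => ⟨by norm_num, fun _ _ _ => by norm_num⟩, levelOne_two n⟩
      · exact ⟨tw n m, isTwist_tw n m, levelOne_of_mem h⟩
    tfae_finish
  · intro t _ ht hd2 h33 u hu hc
    rcases h23 (h12 t ht) with h | h
    · exact absurd h hd2
    · exact forced_of_mem h ht h33 u hu hc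

end Pool.Agent.Lib.MP_386e47_old.CyclicCovers1
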