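import Mathlib

/-!
Cyclic covers of any order, branched along a general hypersurface with given weights (and the
hyperplane at infinity): which ones are CM twists of `h¹` of an abelian variety?
-/

set_option autoImplicit false

namespace Pool.Agent.Lib.MP_386e47_old.CyclicCovers2

/-- `S` is the hypersurface `z^m = F(x_0, …, x_n)`, `F` homogeneous of degree `D` in variables of
weights `1, D/e_1, …, D/e_n`, and `F` and `F(0, x_1, …, x_n)` are quasismooth (for `e_i = d`:
`F = 0` is a smooth hypersurface of degree `d` in `ℙⁿ` transversal to `x_0 = 0`, and `S` is the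
cyclic cover of order `m` of `ℙⁿ` branched along it and, if `m` does not divide `d`, along
`x_0 = 0`).  The part of `Hⁿ(S, ℂ)` on which the covering group acts by the faithful character `u`
has `h^(n+1-q, q-1) ≠ 0` exactly if `q - 1 < ∑ a_i/e_i + u/m < q` for some `0 < a_i < e_i`. -/
def Hodge {n : ℕ} (e : Fin n → ℕ) (m u q : ℕ) : Prop :=
  ∃ a : Fin n → ℕ, (∀ i, 0 < a i ∧ a i < e i) ∧
    (q : ℚ) - 1 < ∑ i, (a i : ℚ) / e i + (u : ℚ) / m ∧ ∑ i, (a i : ℚ) / e i + (u : ℚ) / m < q

/-- `t u = p - q`, `(p, q)` the Hodge type at the unit `u` of an invertible CM motive with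
coefficients in `ℚ(ζ_m)` (its weight `p + q` does not depend on `u`). -/
def IsTwist (m : ℕ) (t : ℕ → ℤ) : Prop :=
  ∀ u < m, u.Coprime m → t (m - u) = -t u ∧ ∀ v < m, v.Coprime m → 2 ∣ t u - t v

/-- The twist by `t` of the part `V` on which the covering group acts by faithful characters has
level at most one. -/
def LevelOne {n : ℕ} (e : Fin n → ℕ) (m : ℕ) (t : ℕ → ℤ) : Prop :=
  ∀ u < m, u.Coprime m → ∀ q, Hodge e m u q → |(n : ℤ) + 2 - 2 * q + t u| ≤ 1

/-- The twist `0` for odd `n`; for even `n`, `-1` below `m/2` and `1` above. -/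
def tw (n m u : ℕ) : ℤ :=
  if n % 2 = 1 then 0 else if 2 * u < m then -1 else if m < 2 * u then 1 else 0

/-- The exponent `f` of the join `y² + z^f = F` (`n` even, `m > 2`). -/
def joinExp (m : ℕ) : ℕ :=
  if m % 2 = 1 then 2 * m else if m % 4 = 2 then m / 2 else m

/-- The index condition, `W = ∑ 1/e_i`.  For `n = 3` it says that `z^m = F` is Fano, for `n = 2` and
`m > 2` that the join `y² + z^f = F` is Fano. -/
def Index (n m : ℕ) (W : ℚ) : Prop :=
  if n % 2 = 1 then ((n : ℚ) - 1) / 2 ≤ W + 1 / m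
  else if m = 2 then ((n : ℚ) - 1) / 2 ≤ W
  else (n : ℚ) / 2 ≤ W + 1 / 2 + 1 / joinExp m

/-- The sporadic cases for equal exponents. -/
def list : List (ℕ × ℕ × ℕ) :=
  [(2, 5, 3), (2, 5, 4), (2, 5, 5), (2, 5, 6), (2, 5, 8), (2, 5, 10), (2, 5, 14), (2, 5, 18),
   (2, 6, 3), (2, 6, 4), (2, 6, 6), (2, 6, 10), (2, 7, 4), (2, 7, 6), (2, 8, 4), (2, 8, 6),
   (2, 9, 6), (2, 10, 6), (2, 11, 6), (2, 12, 6), (3, 4, 2), (3, 4, 3), (3, 4, 4), (3, 5, 2),
   (3, 6, 2), (4, 3, 3), (4, 3, 4), (4, 3, 6), (4, 3, 10), (5, 3, 2), (5, 3, 3)]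

/-- All cases for equal exponents `d`. -/
def Listed (n d m : ℕ) : Prop :=
  d = 2 ∨ (n, d) ∈ [(2, 3), (2, 4), (3, 3)] ∨ (n, d, m) ∈ list

/-! ### The index condition by units -/

lemma coprime_half_odd (t : ℕ) : t.Coprime (2 * t + 1) := by
  have : t.Coprime (1 + 2 * t) := by
    rw [Nat.coprime_add_mul_right_right]
    exact Nat.coprime_one_right t
  rwa [add_comm] at this

lemma coprime_four (s : ℕ) (hs : 1 ≤ s) : (2 * s - 1).Coprime (4 * s) := by
  have h1 : (2 * s - 1).Coprime 2 := by
    rw [Nat.coprime_two_right]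
    exact ⟨s - 1, by omega⟩
  have h2 : (2 * s - 1).Coprime (2 * s) := by
    have : (2 * s - 1).Coprime (2 * s - 1 + 1) := by simp
    rwa [Nat.sub_add_cancel (by omega)] at this
  have h3 := Nat.Coprime.mul_right h1 h2
  have e : 2 * (2 * s) = 4 * s := by ring
  rwa [e] at h3

lemma coprime_four_two (s : ℕ) (hs : 1 ≤ s) : (2 * s - 1).Coprime (4 * s + 2) := by
  have h1 : (2 * s - 1).Coprime 2 := by
    rw [Nat.coprime_two_right]
    exact ⟨s - 1, by omega⟩
  have h2 : (2 * s - 1).Coprime (2 * s + 1) := by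
    have : (2 * s - 1).Coprime (2 + (2 * s - 1)) := by
      rw [Nat.coprime_add_self_right]
      exact h1
    have e : 2 + (2 * s - 1) = 2 * s + 1 := by omega
    rwa [e] at this
  have h3 := Nat.Coprime.mul_right h1 h2
  have e : 2 * (2 * s + 1) = 4 * s + 2 := by ring
  rwa [e] at h3

/-- The index condition in terms of units. -/
def UIndex (n m : ℕ) (W : ℚ) : Prop :=
  if n % 2 = 1 then ((n : ℚ) - 1) / 2 ≤ W + 1 / m
  else ∀ u, u.Coprime m → 2 * u ≤ m → (n : ℚ) / 2 + u / m ≤ W + 1

lemma top_unit {m : ℕ} (hm : 3 ≤ m) :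
    ∃ u, u.Coprime m ∧ 2 * u ≤ m ∧ (u : ℚ) / m = 1 / 2 - 1 / joinExp m := by
  rcases Nat.even_or_odd' m with ⟨k, rfl | rfl⟩
  · rcases Nat.even_or_odd' k with ⟨s, rfl | rfl⟩
    · refine ⟨2 * s - 1, ?_, by omega, ?_⟩
      · have := coprime_four s (by omega)
        rwa [show 2 * (2 * s) = 4 * s by ring]
      · have e1 : joinExp (2 * (2 * s)) = 4 * s := by
          unfold joinExp
          rw [if_neg (by omega), if_neg (by omega)]
          ring
        have hs : (s : ℚ) ≠ 0 := by
          have : s ≠ 0 := by omega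
          exact_mod_cast this
        rw [e1, Nat.cast_sub (by omega)]
        push_cast
        field_simp
        ring
    · refine ⟨2 * s - 1, ?_, by omega, ?_⟩
      · have := coprime_four_two s (by omega)
        rwa [show 2 * (2 * s + 1) = 4 * s + 2 by ring]
      · have e1 : joinExp (2 * (2 * s + 1)) = 2 * s + 1 := by
          unfold joinExp
          rw [if_neg (by omega), if_pos (by omega)]
          omega
        have hs : (2 * (s : ℚ) + 1) ≠ 0 := by positivity
        rw [e1, Nat.cast_sub (by omega)]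
        push_cast
        field_simp
        ring
  · refine ⟨k, coprime_half_odd k, by omega, ?_⟩
    have e1 : joinExp (2 * k + 1) = 2 * (2 * k + 1) := by
      unfold joinExp
      rw [if_pos (by omega)]
    have hs : (2 * (k : ℚ) + 1) ≠ 0 := by positivity
    rw [e1]
    push_cast
    field_simp
    ring

lemma unit_le {m u : ℕ} (hm : 3 ≤ m) (hc : u.Coprime m) (hu : 2 * u ≤ m) :
    (u : ℚ) / m ≤ 1 / 2 - 1 / joinExp m := by
  obtain ⟨v, hv, hv2, hv3⟩ := top_unit hm
  rw [← hv3]
  have hle : u ≤ v := by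
    -- `v` is the greatest unit below `m/2`
    rcases Nat.even_or_odd' m with ⟨k, rfl | rfl⟩
    · rcases Nat.even_or_odd' k with ⟨s, rfl | rfl⟩
      · have e1 : joinExp (2 * (2 * s)) = 4 * s := by
          unfold joinExp
          rw [if_neg (by omega), if_neg (by omega)]
          ring
        have hv4 : v = 2 * s - 1 := by
          have hs : (s : ℚ) ≠ 0 := by
            have : s ≠ 0 := by omega
            exact_mod_cast this
          rw [e1] at hv3
          push_cast at hv3
          field_simp at hv3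
          have : (v : ℚ) + 1 = 2 * s := by linarith
          have : v + 1 = 2 * s := by exact_mod_cast this
          omega
        have h2 : ¬ 2 ∣ u := fun h => by
          have := Nat.dvd_gcd h (⟨2 * s, rfl⟩ : 2 ∣ 2 * (2 * s))
          rw [hc] at this
          omega
        omega
      · have e1 : joinExp (2 * (2 * s + 1)) = 2 * s + 1 := by
          unfold joinExp
          rw [if_neg (by omega), if_pos (by omega)]
          omega
        have hv4 : v = 2 * s - 1 := by
          have hs : (2 * (s : ℚ) + 1) ≠ 0 := by positivity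
          rw [e1] at hv3
          push_cast at hv3
          field_simp at hv3
          have : (v : ℚ) + 1 = 2 * s := by linarith
          have : v + 1 = 2 * s := by exact_mod_cast this
          omega
        have h2 : ¬ 2 ∣ u := fun h => by
          have := Nat.dvd_gcd h (⟨2 * s + 1, rfl⟩ : 2 ∣ 2 * (2 * s + 1))
          rw [hc] at this
          omega
        have h3 : u ≠ 2 * s + 1 := by
          rintro rfl
          have := Nat.dvd_gcd (dvd_refl (2 * s + 1)) (⟨2, by ring⟩ : 2 * s + 1 ∣ 2 * (2 * s + 1))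
          rw [hc] at this
          have := Nat.le_of_dvd (by norm_num) this
          omega
        omega
    · have e1 : joinExp (2 * k + 1) = 2 * (2 * k + 1) := by
        unfold joinExp
        rw [if_pos (by omega)]
      have hv4 : v = k := by
        have hs : (2 * (k : ℚ) + 1) ≠ 0 := by positivity
        rw [e1] at hv3
        push_cast at hv3
        field_simp at hv3
        have : (v : ℚ) = k := by linarith
        exact_mod_cast this
      omega
  gcongr

lemma uindex_iff {n m : ℕ} (hm : 2 ≤ m) (W : ℚ) : Index n m W ↔ UIndex n m W := by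
  unfold Index UIndex
  by_cases h : n % 2 = 1
  · rw [if_pos h, if_pos h]
  · rw [if_neg h, if_neg h]
    by_cases h2 : m = 2
    · subst h2
      rw [if_pos rfl]
      constructor
      · intro hW u hc hu
        have hu' : (u : ℚ) ≤ 1 := by exact_mod_cast (by omega : u ≤ 1)
        have : (u : ℚ) / (2 : ℕ) ≤ 1 / 2 := by
          push_cast
          linarith
        linarith
      · intro H
        have := H 1 (by norm_num) (by norm_num)
        push_cast at this
        linarith
    · rw [if_neg h2]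
      constructor
      · intro hW u hc hu
        have := unit_le (by omega) hc hu
        linarith
      · intro H
        obtain ⟨u, hc, hu, h3⟩ := top_unit (m := m) (by omega)
        have := H u hc hu
        linarith

/-! ### Hodge numbers: an interval -/

/-- the values of `∑ a_i/e_i` have steps at most `1/2` -/
lemma step {n : ℕ} {e : Fin n → ℕ} (he : ∀ i, 2 ≤ e i) {c : ℚ} (h1 : ∑ i, 1 / (e i : ℚ) ≤ c)
    (h2 : c < n - ∑ i, 1 / (e i : ℚ)) :
    ∃ a : Fin n → ℕ, (∀ i, 0 < a i ∧ a i < e i) ∧ c < ∑ i, (a i : ℚ) / e i ∧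
      ∑ i, (a i : ℚ) / e i ≤ c + 1 / 2 := by
  classical
  have hpos : ∀ i, (0 : ℚ) < e i := fun i => by
    have := he i
    exact_mod_cast (by omega : 0 < e i)
  have hex : ∃ N : ℕ, ∃ a : Fin n → ℕ, (∀ i, 0 < a i ∧ a i < e i) ∧ c < ∑ i, (a i : ℚ) / e i ∧
      ∑ i, a i = N := by
    refine ⟨_, fun i => e i - 1, fun i => by have := he i; constructor <;> simp only <;> omega, ?_, rfl⟩
    have : ∑ i, ((e i - 1 : ℕ) : ℚ) / e i = n - ∑ i, 1 / (e i : ℚ) := by
      have h3 : ∀ i, ((e i - 1 : ℕ) : ℚ) / e i = 1 - 1 / (e i : ℚ) := by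
        intro i
        rw [Nat.cast_sub (by have := he i; omega)]
        field_simp [(hpos i).ne']
        simp
      rw [Finset.sum_congr rfl fun i _ => h3 i, Finset.sum_sub_distrib]
      simp
    rw [this]
    exact h2
  obtain ⟨a, ha, hc, hN⟩ := Nat.find_spec hex
  refine ⟨a, ha, hc, ?_⟩
  -- some `a i` is at least two
  obtain ⟨i, hi⟩ : ∃ i, 2 ≤ a i := by
    by_contra hcon
    push Not at hcon
    have h3 : ∀ i, a i = 1 := fun i => by have := (ha i).1; have := hcon i; omega
    have h4 : ∑ i, (a i : ℚ) / e i = ∑ i, 1 / (e i : ℚ) :=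
      Finset.sum_congr rfl fun i _ => by rw [h3 i]; simp
    rw [h4] at hc
    linarith
  by_contra hcon
  push Not at hcon
  have hmin := Nat.find_min hex (m := Nat.find hex - 1) (by
    have : a i ≤ ∑ i, a i := Finset.single_le_sum (fun _ _ => Nat.zero_le _) (Finset.mem_univ i)
    omega)
  apply hmin
  have hsum : ∀ f : ℕ → Fin n → ℚ, ∑ j, f (Function.update a i (a i - 1) j) j =
      ∑ j, f (a j) j - f (a i) i + f (a i - 1) i := by
    intro f
    rw [← Finset.add_sum_erase _ _ (Finset.mem_univ i),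
      ← Finset.add_sum_erase Finset.univ (fun j => f (a j) j) (Finset.mem_univ i)]
    have : ∑ j ∈ Finset.univ.erase i, f (Function.update a i (a i - 1) j) j =
        ∑ j ∈ Finset.univ.erase i, f (a j) j := by
      refine Finset.sum_congr rfl fun j hj => ?_
      rw [Function.update_of_ne (Finset.ne_of_mem_erase hj)]
    rw [this, Function.update_self]
    ring
  refine ⟨Function.update a i (a i - 1), ?_, ?_, ?_⟩
  · intro j
    by_cases hj : j = i
    · subst hj
      rw [Function.update_self]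
      have := (ha j).2
      omega
    · rw [Function.update_of_ne hj]
      exact ha j
  · rw [hsum fun x j => (x : ℚ) / e j]
    have h5 : ((a i - 1 : ℕ) : ℚ) / e i = (a i : ℚ) / e i - 1 / e i := by
      rw [Nat.cast_sub (by omega)]
      push_cast
      ring
    have h6 : 1 / (e i : ℚ) ≤ 1 / 2 := by
      have : (2 : ℚ) ≤ e i := by exact_mod_cast he i
      exact one_div_le_one_div_of_le (by norm_num) this
    simp only [h5]
    linarith
  · have h7 := hsum fun x _ => (x : ℚ)
    have h8 : ((∑ j, Function.update a i (a i - 1) j : ℕ) : ℚ) = ((Nat.find hex - 1 : ℕ) : ℚ) := by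
      rw [Nat.cast_sub (by
        have : a i ≤ ∑ i, a i := Finset.single_le_sum (fun _ _ => Nat.zero_le _) (Finset.mem_univ i)
        omega), ← hN]
      push_cast
      rw [h7, Nat.cast_sub (by omega)]
      push_cast
      ring
    exact_mod_cast h8

lemma hodge_iff {n : ℕ} {e : Fin n → ℕ} (he : ∀ i, 2 ≤ e i) (m u q : ℕ) : Hodge e m u q ↔
    ∑ i, 1 / (e i : ℚ) + (u : ℚ) / m < q ∧ (q : ℚ) - 1 < n - ∑ i, 1 / (e i : ℚ) + (u : ℚ) / m := by
  have hpos : ∀ i, (0 : ℚ) < e i := fun i => by
    have := he i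
    exact_mod_cast (by omega : 0 < e i)
  have hW : ∑ i, 1 / (e i : ℚ) ≤ n - ∑ i, 1 / (e i : ℚ) := by
    have : ∑ i, 1 / (e i : ℚ) ≤ ∑ _i : Fin n, (1 / 2 : ℚ) := by
      refine Finset.sum_le_sum fun i _ => ?_
      have : (2 : ℚ) ≤ e i := by exact_mod_cast he i
      exact one_div_le_one_div_of_le (by norm_num) this
    rw [Finset.sum_const, Finset.card_univ, Fintype.card_fin, nsmul_eq_mul] at this
    linarith
  constructor
  · rintro ⟨a, ha, h1, h2⟩
    have g1 : ∑ i, 1 / (e i : ℚ) ≤ ∑ i, (a i : ℚ) / e i := by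
      refine Finset.sum_le_sum fun i _ => ?_
      have : (1 : ℚ) ≤ a i := by exact_mod_cast (ha i).1
      exact div_le_div_of_nonneg_right this (hpos i).le
    have g2 : ∑ i, (a i : ℚ) / e i ≤ n - ∑ i, 1 / (e i : ℚ) := by
      have h3 : ∀ i, (a i : ℚ) / e i ≤ 1 - 1 / (e i : ℚ) := by
        intro i
        rw [le_sub_iff_add_le, ← add_div, div_le_one (hpos i)]
        exact_mod_cast (ha i).2
      have h4 := Finset.sum_le_sum fun i (_ : i ∈ Finset.univ) => h3 i
      rw [Finset.sum_sub_distrib] at h4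
      simpa using h4
    exact ⟨by linarith, by linarith⟩
  · rintro ⟨h1, h2⟩
    by_cases c : (q : ℚ) - 1 < ∑ i, 1 / (e i : ℚ) + (u : ℚ) / m
    · refine ⟨fun _ => 1, fun i => ⟨Nat.one_pos, by have := he i; show 1 < e i; omega⟩, ?_, ?_⟩
      · simpa using c
      · simpa using h1
    · push Not at c
      obtain ⟨a, ha, h3, h4⟩ := step he (c := (q : ℚ) - 1 - (u : ℚ) / m) (by linarith) (by linarith)
      exact ⟨a, ha, by linarith, by linarith⟩

/-- the types are consecutive -/
lemma hodge_between {n : ℕ} {e : Fin n → ℕ} (he : ∀ i, 2 ≤ e i) {m u x y z : ℕ}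
    (h1 : Hodge e m u x) (h2 : Hodge e m u z) (hxy : x ≤ y) (hyz : y ≤ z) : Hodge e m u y := by
  rw [hodge_iff he] at h1 h2 ⊢
  have g1 : (x : ℚ) ≤ y := by exact_mod_cast hxy
  have g2 : (y : ℚ) ≤ z := by exact_mod_cast hyz
  exact ⟨by linarith [h1.1], by linarith [h2.2]⟩

lemma not_three {n : ℕ} {e : Fin n → ℕ} {m u x y z : ℕ} (h : {q | Hodge e m u q}.encard ≤ 2)
    (hx : Hodge e m u x) (hy : Hodge e m u y) (hz : Hodge e m u z) (hxy : x ≠ y)
    (hyz : y ≠ z) (hxz : x ≠ z) : False := by
  have h3 : ({x, y, z} : Set ℕ) ⊆ {q | Hodge e m u q} := by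
    intro t ht
    simp only [Set.mem_insert_iff, Set.mem_singleton_iff] at ht
    rcases ht with rfl | rfl | rfl <;> assumption
  have h4 := (Set.encard_le_encard h3).trans h
  rw [Set.encard_insert_of_notMem (by simp [hxy, hxz]), Set.encard_pair hyz] at h4
  exact absurd h4 (by norm_num)

lemma atMostTwo_of_levelOne {n : ℕ} {e : Fin n → ℕ} {m : ℕ} {t : ℕ → ℤ} (h : LevelOne e m t)
    (u : ℕ) (hu : u < m) (hc : u.Coprime m) : {q | Hodge e m u q}.encard ≤ 2 := by
  have : {q | Hodge e m u q} ⊆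
      ({(((n : ℤ) + 2 + t u) / 2).toNat, (((n : ℤ) + 2 + t u + 1) / 2).toNat} : Set ℕ) := by
    intro q hq
    have h1 := h u hu hc q hq
    rw [abs_le] at h1
    simp only [Set.mem_insert_iff, Set.mem_singleton_iff]
    omega
  refine (Set.encard_le_encard this).trans ?_
  refine (Set.encard_insert_le _ _).trans ?_
  rw [Set.encard_singleton]
  norm_num

/-! ### The index condition -/

lemma index_odd {k m : ℕ} {W : ℚ} : UIndex (2 * k + 1) m W ↔ (k : ℚ) ≤ W + 1 / m := by
  unfold UIndex
  rw [if_pos (by omega)]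
  have e2 : (((2 * k + 1 : ℕ) : ℚ) - 1) / 2 = k := by
    push_cast
    ring
  rw [e2]

lemma index_even {k m : ℕ} {W : ℚ} : UIndex (2 * k) m W ↔
    ∀ u, u.Coprime m → 2 * u ≤ m → (k : ℚ) + u / m ≤ W + 1 := by
  unfold UIndex
  rw [if_neg (by omega)]
  have e2 : ((2 * k : ℕ) : ℚ) / 2 = k := by
    push_cast
    ring
  rw [e2]

lemma index_of_atMostTwo {n : ℕ} {e : Fin n → ℕ} (he : ∀ i, 2 ≤ e i) {m : ℕ} (hm : 2 ≤ m)
    (h : ∀ u < m, u.Coprime m → {q | Hodge e m u q}.encard ≤ 2) :
    UIndex n m (∑ i, 1 / (e i : ℚ)) := by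
  have hm0 : (0 : ℚ) < m := by exact_mod_cast (by omega : 0 < m)
  rcases Nat.even_or_odd' n with ⟨k, rfl | rfl⟩
  · rw [index_even]
    intro u hc hu
    by_contra hcon
    push Not at hcon
    have hθ : (u : ℚ) / m ≤ 1 / 2 := by
      rw [div_le_iff₀ hm0]
      have : (2 : ℚ) * u ≤ m := by exact_mod_cast hu
      linarith
    have hθ0 : (0 : ℚ) ≤ (u : ℚ) / m := by positivity
    have hq : Hodge e m u k := by
      rw [hodge_iff he]
      push_cast
      constructor <;> linarith
    have hq2 : Hodge e m u (k + 2) := by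
      rw [hodge_iff he]
      push_cast
      constructor <;> linarith
    exact not_three (h u (by omega) hc) hq (hodge_between he hq hq2 (Nat.le_succ k)
      (by omega)) hq2 (by omega) (by omega) (by omega)
  · rw [index_odd]
    by_contra hcon
    push Not at hcon
    have hθ0 : (0 : ℚ) < 1 / m := by positivity
    have hq : Hodge e m 1 k := by
      rw [hodge_iff he]
      push_cast
      constructor <;> linarith
    have hq2 : Hodge e m 1 (k + 2) := by
      rw [hodge_iff he]
      push_cast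
      constructor <;> linarith
    exact not_three (h 1 (by omega) (Nat.coprime_one_left m)) hq
      (hodge_between he hq hq2 (Nat.le_succ k) (by omega)) hq2 (by omega) (by omega)
      (by omega)

lemma two_mul_ne {m u : ℕ} (hm : m ≠ 2) (hc : u.Coprime m) : 2 * u ≠ m := by
  rintro rfl
  have : u = 1 := Nat.Coprime.eq_one_of_dvd hc ⟨2, by ring⟩
  omega

lemma isTwist_tw (n m : ℕ) : IsTwist m (tw n m) := by
  intro u hu hc
  refine ⟨?_, ?_⟩
  · unfold tw
    split_ifs <;> omega
  · intro v hv hcv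
    rcases eq_or_ne m 2 with rfl | hm
    · have h1 : u = 1 := by
        interval_cases u
        · exact absurd hc (by decide)
        · rfl
      have h2 : v = 1 := by
        interval_cases v
        · exact absurd hcv (by decide)
        · rfl
      subst h1; subst h2; simp
    · have h1 := two_mul_ne hm hc
      have h2 := two_mul_ne hm hcv
      unfold tw
      split_ifs <;> omega

lemma levelOne_of_index {n : ℕ} {e : Fin n → ℕ} (he : ∀ i, 2 ≤ e i) {m : ℕ} (hm : 2 ≤ m)
    (h : UIndex n m (∑ i, 1 / (e i : ℚ))) : LevelOne e m (tw n m) := by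
  intro u hu hc q hq
  have hm0 : (0 : ℚ) < m := by exact_mod_cast (by omega : 0 < m)
  have hu0 : 0 < u := by
    rcases Nat.eq_zero_or_pos u with rfl | h0
    · rw [Nat.coprime_zero_left] at hc; omega
    · exact h0
  have hθ1 : (1 : ℚ) / m ≤ u / m :=
    div_le_div_of_nonneg_right (by exact_mod_cast hu0) hm0.le
  have hθ2 : (u : ℚ) / m + 1 / m ≤ 1 := by
    rw [← add_div, div_le_one hm0]
    exact_mod_cast hu
  have hθ0 : (0 : ℚ) < 1 / m := by positivity
  rw [hodge_iff he] at hq
  obtain ⟨h1, h2⟩ := hq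
  rcases Nat.even_or_odd' n with ⟨k, rfl | rfl⟩
  · rw [index_even] at h
    push_cast at h1 h2
    rcases lt_trichotomy (2 * u) m with hlt | heq | hgt
    · have e1 : tw (2 * k) m u = -1 := by
        unfold tw; rw [if_neg (by omega), if_pos hlt]
      have h3 := h u hc hlt.le
      have g1 : (k : ℚ) - 1 < q := by linarith
      have g2 : (q : ℚ) < k + 2 := by linarith
      have g1' : (k : ℤ) - 1 < q := by exact_mod_cast g1
      have g2' : (q : ℤ) < k + 2 := by exact_mod_cast g2
      rw [e1, abs_le]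
      push_cast
      omega
    · have e1 : tw (2 * k) m u = 0 := by
        unfold tw; rw [if_neg (by omega), if_neg (by omega), if_neg (by omega)]
      have h3 := h u hc heq.le
      have h4 : (u : ℚ) / m = 1 / 2 := by
        rw [div_eq_iff hm0.ne']
        have : (2 : ℚ) * u = m := by exact_mod_cast heq
        linarith
      have g1 : (k : ℚ) < q := by linarith
      have g2 : (q : ℚ) < k + 2 := by linarith
      have g1' : (k : ℤ) < q := by exact_mod_cast g1
      have g2' : (q : ℤ) < k + 2 := by exact_mod_cast g2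
      rw [e1, abs_le]
      push_cast
      omega
    · have e1 : tw (2 * k) m u = 1 := by
        unfold tw; rw [if_neg (by omega), if_neg (by omega), if_pos hgt]
      have hc' : (m - u).Coprime m := by
        rw [Nat.coprime_comm]
        exact (Nat.coprime_self_sub_right hu.le).2 hc.symm
      have h3 := h (m - u) hc' (by omega)
      have h4 : ((m - u : ℕ) : ℚ) / m = 1 - u / m := by
        rw [Nat.cast_sub hu.le, sub_div, div_self hm0.ne']
      rw [h4] at h3
      have g1 : (k : ℚ) < q := by linarith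
      have g2 : (q : ℚ) < k + 3 := by linarith
      have g1' : (k : ℤ) < q := by exact_mod_cast g1
      have g2' : (q : ℤ) < k + 3 := by exact_mod_cast g2
      rw [e1, abs_le]
      push_cast
      omega
  · rw [index_odd] at h
    push_cast at h1 h2
    have e1 : tw (2 * k + 1) m u = 0 := by
      unfold tw; rw [if_pos (by omega)]
    have g1 : (k : ℚ) < q := by linarith
    have g2 : (q : ℚ) < k + 3 := by linarith
    have g1' : (k : ℤ) < q := by exact_mod_cast g1
    have g2' : (q : ℤ) < k + 3 := by exact_mod_cast g2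
    rw [e1, abs_le]
    push_cast
    omega

/-! ### The twist is forced -/

lemma forced {n : ℕ} {e : Fin n → ℕ} (he : ∀ i, 2 ≤ e i) {m : ℕ} (hm : 2 ≤ m)
    (hW : ∑ i, 1 / (e i : ℚ) ≤ ((n : ℚ) - 1) / 2) {t : ℕ → ℤ} (htw : IsTwist m t)
    (h : LevelOne e m t) (u : ℕ) (hu : u < m) (hc : u.Coprime m) : t u = tw n m u := by
  have hm0 : (0 : ℚ) < m := by exact_mod_cast (by omega : 0 < m)
  -- below `m / 2`
  have low : ∀ u, 2 * u < m → u.Coprime m → t u = tw n m u := by
    intro u hu hc
    have hu0 : 0 < u := by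
      rcases Nat.eq_zero_or_pos u with rfl | h0
      · rw [Nat.coprime_zero_left] at hc; omega
      · exact h0
    have hθ0 : (0 : ℚ) < u / m := by
      have : (0 : ℚ) < u := by exact_mod_cast hu0
      positivity
    have hθ : (u : ℚ) / m < 1 / 2 := by
      rw [div_lt_iff₀ hm0]
      have : (2 : ℚ) * u < m := by exact_mod_cast hu
      linarith
    rcases Nat.even_or_odd' n with ⟨k, rfl | rfl⟩
    · push_cast at hW
      have a1 := h u (by omega) hc k (by
        rw [hodge_iff he]
        push_cast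
        constructor <;> linarith)
      have a2 := h u (by omega) hc (k + 1) (by
        rw [hodge_iff he]
        push_cast
        constructor <;> linarith)
      have e1 : tw (2 * k) m u = -1 := by
        unfold tw; rw [if_neg (by omega), if_pos hu]
      rw [e1]
      rw [abs_le] at a1 a2
      push_cast at a1 a2
      omega
    · push_cast at hW
      have a1 := h u (by omega) hc (k + 1) (by
        rw [hodge_iff he]
        push_cast
        constructor <;> linarith)
      have a2 := h u (by omega) hc (k + 2) (by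
        rw [hodge_iff he]
        push_cast
        constructor <;> linarith)
      have e1 : tw (2 * k + 1) m u = 0 := by
        unfold tw; rw [if_pos (by omega)]
      rw [e1]
      rw [abs_le] at a1 a2
      push_cast at a1 a2
      omega
  rcases lt_trichotomy (2 * u) m with hlt | heq | hgt
  · exact low u hlt hc
  · have h1 := (htw u hu hc).1
    have e1 : m - u = u := by omega
    rw [e1] at h1
    have e2 : tw n m u = 0 := by
      unfold tw
      split_ifs <;> omega
    rw [e2]
    omega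
  · have hc' : (m - u).Coprime m := by
      rw [Nat.coprime_comm]
      exact (Nat.coprime_self_sub_right hu.le).2 hc.symm
    have h1 := (htw u hu hc).1
    have h2 := (isTwist_tw n m u hu hc).1
    rw [low (m - u) (by omega) hc', h2] at h1
    omega

/-! ### Equal exponents: the list -/

lemma index_odd' {k d m : ℕ} (hd : 0 < d) (hm : 0 < m) :
    UIndex (2 * k + 1) m (((2 * k + 1 : ℕ) : ℚ) / d) ↔ k * (d * m) ≤ (2 * k + 1) * m + d := by
  have hd' : (0 : ℚ) < d := by exact_mod_cast hd
  have hm' : (0 : ℚ) < m := by exact_mod_cast hm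
  rw [index_odd]
  have e : ((2 * k + 1 : ℕ) : ℚ) / d + 1 / m = ((2 * k + 1) * m + d) / (d * m) := by
    push_cast
    field_simp
  rw [e, le_div_iff₀ (by positivity)]
  constructor
  · intro h
    have h2 : ((k * (d * m) : ℕ) : ℚ) ≤ (((2 * k + 1) * m + d : ℕ) : ℚ) := by
      push_cast
      exact h
    exact_mod_cast h2
  · intro h
    have h2 : ((k * (d * m) : ℕ) : ℚ) ≤ (((2 * k + 1) * m + d : ℕ) : ℚ) := by exact_mod_cast h
    push_cast at h2
    exact h2

lemma index_even' {k d m : ℕ} (hd : 0 < d) (hm : 0 < m) :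
    UIndex (2 * k) m (((2 * k : ℕ) : ℚ) / d) ↔ ∀ u, u.Coprime m → 2 * u ≤ m →
      k * (d * m) + u * d ≤ 2 * k * m + d * m := by
  have hd' : (0 : ℚ) < d := by exact_mod_cast hd
  have hm' : (0 : ℚ) < m := by exact_mod_cast hm
  rw [index_even]
  have key : ∀ u : ℕ, ((k : ℚ) + u / m ≤ ((2 * k : ℕ) : ℚ) / d + 1) ↔
      k * (d * m) + u * d ≤ 2 * k * m + d * m := by
    intro u
    have e1 : (k : ℚ) + u / m = (k * (d * m) + u * d) / (d * m) := by
      field_simp
    have e2 : ((2 * k : ℕ) : ℚ) / d + 1 = (2 * k * m + d * m) / (d * m) := by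
      push_cast
      field_simp
    rw [e1, e2, div_le_div_iff_of_pos_right (by positivity)]
    constructor
    · intro h
      have h2 : ((k * (d * m) + u * d : ℕ) : ℚ) ≤ ((2 * k * m + d * m : ℕ) : ℚ) := by
        push_cast
        exact h
      exact_mod_cast h2
    · intro h
      have h2 : ((k * (d * m) + u * d : ℕ) : ℚ) ≤ ((2 * k * m + d * m : ℕ) : ℚ) := by
        exact_mod_cast h
      push_cast at h2
      exact h2
  constructor
  · intro h u hc hu
    exact (key u).1 (h u hc hu)
  · intro h u hc hu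
    exact (key u).2 (h u hc hu)

/-- the units used -/
lemma units_used (m : ℕ) (hm : 2 ≤ m) : ∃ u, u.Coprime m ∧ 2 * u ≤ m ∧
    ((m % 2 = 1 ∧ 2 * u + 1 = m) ∨ (m % 4 = 0 ∧ 2 * u + 2 = m) ∨ (m % 4 = 2 ∧ 2 * u + 4 = m) ∨
      (m = 2 ∧ u = 1)) := by
  rcases Nat.even_or_odd' m with ⟨t, rfl | rfl⟩
  · rcases Nat.even_or_odd' t with ⟨s, rfl | rfl⟩
    · refine ⟨2 * s - 1, ?_, by omega, by omega⟩
      have := coprime_four s (by omega)
      have e : 4 * s = 2 * (2 * s) := by ring
      rwa [e] at this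
    · rcases Nat.eq_zero_or_pos s with rfl | hs
      · exact ⟨1, by norm_num, by norm_num, by norm_num⟩
      · refine ⟨2 * s - 1, ?_, by omega, by omega⟩
        have := coprime_four_two s hs
        have e : 4 * s + 2 = 2 * (2 * s + 1) := by ring
        rwa [e] at this
  · exact ⟨t, coprime_half_odd t, by omega, by omega⟩

lemma listed_of_index {n d m : ℕ} (hn : 2 ≤ n) (hd : 2 ≤ d) (hm : 2 ≤ m) (h : UIndex n m ((n : ℚ) / d)) :
    Listed n d m := by
  rcases Nat.lt_or_ge d 3 with hd3 | hd3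
  · exact Or.inl (by omega)
  rcases Nat.even_or_odd' n with ⟨k, rfl | rfl⟩
  · rw [index_even' (by omega) (by omega)] at h
    have h1 := h 1 (Nat.coprime_one_left m) (by omega)
    -- `k ≤ 2`
    have hk : k ≤ 2 := by
      by_contra hcon
      have h2 : 3 * (k * m) ≤ d * (k * m) := Nat.mul_le_mul_right _ hd3
      have h3 : 3 * m ≤ k * m := Nat.mul_le_mul_right _ (by omega)
      have h4 : (d - 2) * (3 * m) ≤ (d - 2) * (k * m) := Nat.mul_le_mul_left _ h3
      obtain ⟨e, rfl⟩ : ∃ e, d = e + 3 := ⟨d - 3, by omega⟩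
      have h5 : e * (3 * m) ≤ e * (k * m) := Nat.mul_le_mul_left _ h3
      nlinarith
    obtain ⟨u, hc, hu, hcase⟩ := units_used m hm
    have h2 := h u hc hu
    have hk' : k = 1 ∨ k = 2 := by omega
    rcases hk' with rfl | rfl
    · -- `n = 2`
      have h3 : u * d ≤ 2 * m := by nlinarith
      rcases Nat.lt_or_ge d 5 with hd5 | hd5
      · right; left
        have : d = 3 ∨ d = 4 := by omega
        rcases this with rfl | rfl <;> simp
      · right; right
        have h4 : u * 5 ≤ u * d := Nat.mul_le_mul_left _ hd5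
        have hm18 : m ≤ 20 := by omega
        have hu8 : u ≤ 8 := by omega
        have hd12 : d ≤ 12 := by
          by_contra hcon
          have h5 : u * 13 ≤ u * d := Nat.mul_le_mul_left _ (by omega)
          omega
        interval_cases m <;> interval_cases u <;> first | omega | (interval_cases d <;> first | omega | simp [list])
    · -- `n = 4`
      have hd' : d = 3 := by
        by_contra hcon
        have h3 : 4 * m ≤ d * m := Nat.mul_le_mul_right _ (by omega)
        have h4 : 0 < 1 * d := by omega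
        nlinarith
      subst hd'
      right; right
      have h3 : 3 * u ≤ m := by nlinarith
      have hm18 : m ≤ 12 := by omega
      interval_cases m <;> first | omega | simp [list]
  · rw [index_odd' (by omega) (by omega)] at h
    have hk1 : 1 ≤ k := by omega
    obtain ⟨e, rfl⟩ : ∃ e, d = e + 3 := ⟨d - 3, by omega⟩
    have hk : k ≤ 2 := by
      by_contra hcon
      have h3 : 3 * m ≤ k * m := Nat.mul_le_mul_right _ (by omega)
      have h5 : e * (3 * m) ≤ e * (k * m) := Nat.mul_le_mul_left _ h3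
      have h6 : e * 2 ≤ e * m := Nat.mul_le_mul_left _ hm
      nlinarith
    have hk' : k = 1 ∨ k = 2 := by omega
    rcases hk' with rfl | rfl
    · -- `n = 3`
      have h3 : e * m ≤ e + 3 := by nlinarith
      rcases Nat.eq_zero_or_pos e with rfl | he
      · right; left; simp
      · right; right
        have h4 : e * 2 ≤ e * m := Nat.mul_le_mul_left _ hm
        have he3 : e ≤ 3 := by omega
        have h5 : 1 * m ≤ e * m := Nat.mul_le_mul_right _ he
        have hm4 : m ≤ 6 := by omega
        interval_cases e <;> interval_cases m <;> first | omega | simp [list]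
    · -- `n = 5`
      right; right
      have h3 : m + 2 * (e * m) ≤ e + 3 := by nlinarith
      have h4 : e * 2 ≤ e * m := Nat.mul_le_mul_left _ hm
      have he : e = 0 := by omega
      subst he
      have : m = 2 ∨ m = 3 := by omega
      rcases this with rfl | rfl <;> simp [list]

lemma index_of_listed {n d m : ℕ} (hn : 2 ≤ n) (hd : 2 ≤ d) (hm : 2 ≤ m) (h : Listed n d m) :
    UIndex n m ((n : ℚ) / d) := by
  have hev : ∀ k d m : ℕ, 0 < d → 0 < m → (∀ u, u.Coprime m → 2 * u ≤ m →
      k * (d * m) + u * d ≤ 2 * k * m + d * m) → UIndex (2 * k) m (((2 * k : ℕ) : ℚ) / d) :=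
    fun k d m h1 h2 => (index_even' h1 h2).2
  have hod : ∀ k d m : ℕ, 0 < d → 0 < m → k * (d * m) ≤ (2 * k + 1) * m + d →
      UIndex (2 * k + 1) m (((2 * k + 1 : ℕ) : ℚ) / d) := fun k d m h1 h2 => (index_odd' h1 h2).2
  rcases h with rfl | h | h
  · rcases Nat.even_or_odd' n with ⟨k, rfl | rfl⟩
    · refine hev k 2 m (by norm_num) (by omega) fun u _ hu => ?_
      nlinarith
    · refine hod k 2 m (by norm_num) (by omega) ?_
      nlinarith
  · simp only [List.mem_cons, Prod.mk.injEq, List.not_mem_nil, or_false] at h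
    rcases h with ⟨rfl, rfl⟩ | ⟨rfl, rfl⟩ | ⟨rfl, rfl⟩
    · exact hev 1 3 m (by norm_num) (by omega) fun u _ hu => by omega
    · exact hev 1 4 m (by norm_num) (by omega) fun u _ hu => by omega
    · exact hod 1 3 m (by norm_num) (by omega) (by omega)
  · have key2 : ∀ d m : ℕ, 0 < d → 0 < m → (∀ u, u.Coprime m → 2 * u ≤ m → u * d ≤ 2 * m) →
        UIndex 2 m (((2 : ℕ) : ℚ) / d) := by
      intro d m h1 h2 h3
      refine hev 1 d m h1 h2 fun u hc hu => ?_
      have := h3 u hc hu
      nlinarith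
    have key4 : ∀ d m : ℕ, 0 < d → 0 < m → (∀ u, u.Coprime m → 2 * u ≤ m →
        2 * (d * m) + u * d ≤ 4 * m + d * m) → UIndex 4 m (((4 : ℕ) : ℚ) / d) := by
      intro d m h1 h2 h3
      refine hev 2 d m h1 h2 fun u hc hu => ?_
      have := h3 u hc hu
      nlinarith
    have key3 : ∀ d m : ℕ, 0 < d → 0 < m → d * m ≤ 3 * m + d → UIndex 3 m (((3 : ℕ) : ℚ) / d) := by
      intro d m h1 h2 h3
      exact hod 1 d m h1 h2 (by nlinarith)
    have key5 : ∀ d m : ℕ, 0 < d → 0 < m → 2 * (d * m) ≤ 5 * m + d → UIndex 5 m (((5 : ℕ) : ℚ) / d) := by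
      intro d m h1 h2 h3
      exact hod 2 d m h1 h2 (by nlinarith)
    simp only [list, List.mem_cons, Prod.mk.injEq, List.not_mem_nil, or_false] at h
    rcases h with ⟨rfl, rfl, rfl⟩ | ⟨rfl, rfl, rfl⟩ | ⟨rfl, rfl, rfl⟩ | ⟨rfl, rfl, rfl⟩ |
      ⟨rfl, rfl, rfl⟩ | ⟨rfl, rfl, rfl⟩ | ⟨rfl, rfl, rfl⟩ | ⟨rfl, rfl, rfl⟩ | ⟨rfl, rfl, rfl⟩ |
      ⟨rfl, rfl, rfl⟩ | ⟨rfl, rfl, rfl⟩ | ⟨rfl, rfl, rfl⟩ | ⟨rfl, rfl, rfl⟩ | ⟨rfl, rfl, rfl⟩ |
      ⟨rfl, rfl, rfl⟩ | ⟨rfl, rfl, rfl⟩ | ⟨rfl, rfl, rfl⟩ | ⟨rfl, rfl, rfl⟩ | ⟨rfl, rfl, rfl⟩ |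
      ⟨rfl, rfl, rfl⟩ | ⟨rfl, rfl, rfl⟩ | ⟨rfl, rfl, rfl⟩ | ⟨rfl, rfl, rfl⟩ | ⟨rfl, rfl, rfl⟩ |
      ⟨rfl, rfl, rfl⟩ | ⟨rfl, rfl, rfl⟩ | ⟨rfl, rfl, rfl⟩ | ⟨rfl, rfl, rfl⟩ | ⟨rfl, rfl, rfl⟩ |
      ⟨rfl, rfl, rfl⟩ | ⟨rfl, rfl, rfl⟩
    all_goals first
      | exact key3 _ _ (by norm_num) (by norm_num) (by norm_num)
      | exact key5 _ _ (by norm_num) (by norm_num) (by norm_num)
      | (refine key2 _ _ (by norm_num) (by norm_num) fun u hc hu => ?_
         have hu' : u ≤ 9 := by omega
         interval_cases u <;> first | omega | exact absurd hc (by decide))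
      | (refine key4 _ _ (by norm_num) (by norm_num) fun u hc hu => ?_
         have hu' : u ≤ 5 := by omega
         interval_cases u <;> first | omega | exact absurd hc (by decide))


/-! ### All orders -/

/-- The equivalence, for one `m`. -/
lemma main {n : ℕ} {e : Fin n → ℕ} (he : ∀ i, 2 ≤ e i) {m : ℕ} (hm : 2 ≤ m) :
    [∃ t, IsTwist m t ∧ LevelOne e m t,
     ∀ u < m, u.Coprime m → {q | Hodge e m u q}.encard ≤ 2,
     Index n m (∑ i, 1 / (e i : ℚ)),
     IsTwist m (tw n m) ∧ LevelOne e m (tw n m)].TFAE := by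
  tfae_have 1 → 2 := fun ⟨t, _, ht⟩ u hu hc => atMostTwo_of_levelOne ht u hu hc
  tfae_have 2 → 3 := fun h => (uindex_iff hm _).2 (index_of_atMostTwo he hm h)
  tfae_have 3 → 4 := fun h => ⟨isTwist_tw n m, levelOne_of_index he hm ((uindex_iff hm _).1 h)⟩
  tfae_have 4 → 1 := fun h => ⟨_, h⟩
  tfae_finish

lemma le_joinExp (m : ℕ) : m ≤ 2 * joinExp m := by
  unfold joinExp
  split_ifs <;> omega

lemma bounded {n m : ℕ} (hm : 3 ≤ m) {W : ℚ} (h : Index n m W) :
    ((n : ℚ) - 1) / 2 ≤ W + 2 / m := by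
  have hm0 : (0 : ℚ) < m := by exact_mod_cast (by omega : 0 < m)
  have h1 : (1 : ℚ) / m ≤ 2 / m := by gcongr; norm_num
  have h2 : (1 : ℚ) / joinExp m ≤ 2 / m := by
    have h3 : (m : ℚ) ≤ 2 * joinExp m := by exact_mod_cast le_joinExp m
    have h4 : (0 : ℚ) < joinExp m := by linarith
    rw [div_le_div_iff₀ h4 hm0]
    linarith
  unfold Index at h
  split_ifs at h with h5 h6
  · linarith
  · omega
  · linarith

lemma index_of_le {n : ℕ} (m : ℕ) {W : ℚ} (h : ((n : ℚ) - 1) / 2 ≤ W) : Index n m W := by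
  have h1 : (0 : ℚ) ≤ 1 / m := by positivity
  have h2 : (0 : ℚ) ≤ 1 / joinExp m := by positivity
  unfold Index
  split_ifs with h5 h6
  · linarith
  · exact h
  · linarith

lemma allM {n : ℕ} {e : Fin n → ℕ} (he : ∀ i, 2 ≤ e i) :
    [∀ m, 2 ≤ m → ∃ t, IsTwist m t ∧ LevelOne e m t,
     {m | ∃ t, IsTwist m t ∧ LevelOne e m t}.Infinite,
     ((n : ℚ) - 1) / 2 ≤ ∑ i, 1 / (e i : ℚ)].TFAE := by
  tfae_have 1 → 2 := fun h => (Set.Ici_infinite 2).mono fun m hm => h m hm
  tfae_have 2 → 3 := by
    intro h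
    by_contra hcon
    push Not at hcon
    obtain ⟨N, hN⟩ := exists_nat_gt (2 / (((n : ℚ) - 1) / 2 - ∑ i, 1 / (e i : ℚ)))
    obtain ⟨m, hm, hmN⟩ := h.exists_gt (max N 3)
    have h3 : 3 ≤ m := (le_max_right N 3).trans hmN.le
    have h4 : (N : ℚ) < m := by exact_mod_cast (le_max_left N 3).trans_lt hmN
    have h5 := bounded h3 (((main he (m := m) (by omega)).out 0 2).1 hm)
    have h6 : (0 : ℚ) < ((n : ℚ) - 1) / 2 - ∑ i, 1 / (e i : ℚ) := by linarith
    have hm0 : (0 : ℚ) < m := by exact_mod_cast (by omega : 0 < m)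
    have h7 : ((n : ℚ) - 1) / 2 - ∑ i, 1 / (e i : ℚ) ≤ 2 / m := by linarith
    rw [div_lt_iff₀ h6] at hN
    rw [le_div_iff₀ hm0] at h7
    nlinarith
  tfae_have 3 → 1 := fun h m hm => ((main he (m := m) hm).out 0 2).2 (index_of_le m h)
  tfae_finish

/-- Cyclic covers `z^m = F`, `F` general with weights `1/e_i`.  For every `m`: some CM twist of the
faithful part has level at most one, iff there are at most two Hodge numbers at every unit, iff the
index condition holds, iff `tw` is such a twist; the twist is forced if `∑ 1/e_i ≤ (n - 1)/2`; for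
equal exponents the index condition is the list.  Such a twist exists for all `m`, iff it exists
for infinitely many `m`, iff `(n - 1)/2 ≤ ∑ 1/e_i`. -/
theorem result (n : ℕ) (e : Fin n → ℕ) (hn : 2 ≤ n) (he : ∀ i, 2 ≤ e i) :
    (∀ m, 2 ≤ m →
      [∃ t, IsTwist m t ∧ LevelOne e m t,
       ∀ u < m, u.Coprime m → {q | Hodge e m u q}.encard ≤ 2,
       Index n m (∑ i, 1 / (e i : ℚ)),
       IsTwist m (tw n m) ∧ LevelOne e m (tw n m)].TFAE ∧
      (∑ i, 1 / (e i : ℚ) ≤ ((n : ℚ) - 1) / 2 → ∀ t, IsTwist m t → LevelOne e m t →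
        ∀ u < m, u.Coprime m → t u = tw n m u) ∧
      ∀ d, (∀ i, e i = d) → (Index n m (∑ i, 1 / (e i : ℚ)) ↔ Listed n d m)) ∧
    [∀ m, 2 ≤ m → ∃ t, IsTwist m t ∧ LevelOne e m t,
     {m | ∃ t, IsTwist m t ∧ LevelOne e m t}.Infinite,
     ((n : ℚ) - 1) / 2 ≤ ∑ i, 1 / (e i : ℚ)].TFAE := by
  refine ⟨fun m hm => ⟨main he hm, fun hW t ht h u hu hc => forced he hm hW ht h u hu hc, ?_⟩,
    allM he⟩
  intro d hd
  have hd2 : 2 ≤ d := by rw [← hd ⟨0, by omega⟩]; exact he _
  have e1 : ∑ i, 1 / (e i : ℚ) = (n : ℚ) / d := by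
    rw [Finset.sum_congr rfl fun i _ => by rw [hd i]]
    simp [div_eq_mul_inv]
  rw [e1]
  exact (uindex_iff hm _).trans ⟨listed_of_index hn hd2 hm, index_of_listed hn hd2 hm⟩

end Pool.Agent.Lib.MP_386e47_old.CyclicCovers2
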