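import Mathlib
import Pool.Agent.Lib.MP_386e47_ag_h1.Deform

set_option autoImplicit false

namespace Pool.Agent.Lib.MP_386e47_old.FermatPencils

open Finset

/-- `a` is a character of exact order `m` of the product of Fermat varieties with one factor for
every block of `b`: no entry is zero, the entries of every block sum to zero, and no smaller
positive multiple kills `a`. -/
def IsChar {ι κ : Type} [Fintype ι] [DecidableEq κ] (b : ι → κ) {m : ℕ} (a : ι → ZMod m) : Prop :=
  (∀ i, a i ≠ 0) ∧ (∀ j, ∑ i with b i = j, a i = 0) ∧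
    ∀ d : ℕ, 0 < d → (∀ i, (d : ZMod m) * a i = 0) → m ≤ d

/-- the conjugate `u a / m` of the character, as a real vector -/
noncomputable def point {ι : Type} {m : ℕ} (a : ι → ZMod m) (u : (ZMod m)ˣ) : ι → ℝ :=
  fun i => (((u : ZMod m) * a i).val : ℝ) / m

/-- the point with parameter `t` on the line with direction `c` through the conjugate `u a / m` -/
noncomputable def line {ι : Type} {m : ℕ} (a : ι → ZMod m) (c : ι → ℤ) (u : (ZMod m)ˣ) (t : ℝ) :
    ι → ℝ :=
  fun i => point a u i + t * c i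

/-- no entry is an integer -/
def Generic {ι : Type} (x : ι → ℝ) : Prop := ∀ i, ∀ k : ℤ, x i ≠ k

/-- the Hodge vector: for every block the sum of the fractional parts of its entries -/
noncomputable def hodge {ι κ : Type} [Fintype ι] [DecidableEq κ] (b : ι → κ) (x : ι → ℝ) : κ → ℝ :=
  fun j => ∑ i with b i = j, Int.fract (x i)

/-- level at most one: the total Hodge number takes at most two consecutive values on the
conjugates -/
def LevelLeOne {ι κ : Type} [Fintype ι] [Fintype κ] [DecidableEq κ] (b : ι → κ) {m : ℕ}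
    (a : ι → ZMod m) : Prop :=
  ∃ k : ℤ, ∀ v : (ZMod m)ˣ, (∑ j, hodge b (point a v) j = k) ∨ (∑ j, hodge b (point a v) j = k + 1)

lemma sum_hodge {ι κ : Type} [Fintype ι] [Fintype κ] [DecidableEq κ] (b : ι → κ) (x : ι → ℝ) :
    ∑ j, hodge b x j = ∑ i, Int.fract (x i) := by
  unfold hodge
  exact Finset.sum_fiberwise _ _ _

theorem result {ι κ : Type} [Fintype ι] [DecidableEq ι] [Fintype κ] [DecidableEq κ] (b : ι → κ) :
    ∃ (M : ℕ) (C : Finset (ι → ℤ)), (∀ c ∈ C, c ≠ 0 ∧ ∀ j, ∑ i with b i = j, c i = 0) ∧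
      ∀ (m : ℕ) [NeZero m] (a : ι → ZMod m), M < m → IsChar b a → ∃ c ∈ C,
        (∀ (u : (ZMod m)ˣ) (t : ℝ), Generic (line a c u t) →
          ∃ v : (ZMod m)ˣ, hodge b (line a c u t) = hodge b (point a v)) ∧
        (LevelLeOne b a → ∀ (u : (ZMod m)ˣ) (t t' : ℝ), Generic (line a c u t) →
          Generic (line a c u t') → |∑ i, (⌊line a c u t' i⌋ - ⌊line a c u t i⌋)| ≤ 1) := by
  obtain ⟨M, C, hC, h⟩ := Pool.Agent.Lib.MP_386e47_ag_h1.deform b
  refine ⟨M, C, hC, fun m hne a hm ha => ?_⟩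
  obtain ⟨c, hc, hgood⟩ := h ⟨m, hne, a, ha.1, ha.2.1, ha.2.2⟩ hm
  have hmain : ∀ (u : (ZMod m)ˣ) (t : ℝ), Generic (line a c u t) →
      ∃ v : (ZMod m)ˣ, hodge b (line a c u t) = hodge b (point a v) := by
    intro u t hg
    obtain ⟨v, hv⟩ := hgood u t hg
    refine ⟨v, funext fun j => (hv j).trans ?_⟩
    unfold Pool.Agent.Lib.MP_386e47_ag_h1.Datum.val hodge point
    exact Finset.sum_congr rfl fun i _ =>
      (Pool.Agent.Lib.MP_386e47_ag_h1.fract_val_div _).symm
  refine ⟨c, hc, hmain, ?_⟩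
  rintro ⟨k, hk⟩ u t t' ht ht'
  have htwo : ∀ t : ℝ, Generic (line a c u t) →
      (∑ i, Int.fract (line a c u t i) = k) ∨ (∑ i, Int.fract (line a c u t i) = k + 1) := by
    intro t hg
    obtain ⟨v, hv⟩ := hmain u t hg
    rw [← sum_hodge b, hv]
    exact hk v
  have hzero : ∑ i, (c i : ℝ) = 0 := by
    have h1 : ∑ i, c i = 0 := by
      rw [← Finset.sum_fiberwise (s := Finset.univ) (g := b) (f := c)]
      exact Finset.sum_eq_zero fun j _ => (hC c hc).2 j
    exact_mod_cast h1
  have hsum : ((∑ i, (⌊line a c u t' i⌋ - ⌊line a c u t i⌋) : ℤ) : ℝ)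
      = ∑ i, Int.fract (line a c u t i) - ∑ i, Int.fract (line a c u t' i) := by
    have h1 : ∀ i, ((⌊line a c u t' i⌋ - ⌊line a c u t i⌋ : ℤ) : ℝ)
        = Int.fract (line a c u t i) - Int.fract (line a c u t' i) + (t' - t) * c i := by
      intro i
      have e1 : Int.fract (line a c u t i) = line a c u t i - ⌊line a c u t i⌋ := rfl
      have e2 : Int.fract (line a c u t' i) = line a c u t' i - ⌊line a c u t' i⌋ := rfl
      have e3 : line a c u t' i - line a c u t i = (t' - t) * c i := by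
        unfold line
        ring
      rw [e1, e2, ← e3]
      push_cast
      ring
    rw [Int.cast_sum, Finset.sum_congr rfl fun i _ => h1 i, Finset.sum_add_distrib,
      Finset.sum_sub_distrib, ← Finset.mul_sum, hzero, mul_zero, add_zero]
  have hle : |((∑ i, (⌊line a c u t' i⌋ - ⌊line a c u t i⌋) : ℤ) : ℝ)| ≤ 1 := by
    rw [hsum, abs_le]
    rcases htwo t ht with h1 | h1 <;> rcases htwo t' ht' with h2 | h2 <;> rw [h1, h2] <;>
      constructor <;> linarith
  exact_mod_cast hle

end Pool.Agent.Lib.MP_386e47_old.FermatPencils
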