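import Mathlib
import Pool.Agent.Lib.MP_386e47_h75.Final

set_option autoImplicit false

namespace Pool.Agent.Results.MP_386e47_ag.LevelOneFermat

/-- `s` is a character of the Fermat variety of dimension `2 * k - 1` and degree `m` with nonzero
eigenspace in the primitive cohomology: a multiset of `2 * k + 1` nonzero residues modulo `m` with
sum zero. -/
def IsCharacter (m k : ℕ) (s : Multiset (ZMod m)) : Prop :=
  Multiset.card s = 2 * k + 1 ∧ (0 : ZMod m) ∉ s ∧ s.sum = 0

/-- Hodge level at most one: for every unit `t` modulo `m` the least nonnegative residues of the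
`t * x`, `x ∈ s`, have sum `k * m` or `(k + 1) * m`. -/
def LevelOne (m k : ℕ) (s : Multiset (ZMod m)) : Prop :=
  ∀ t : (ZMod m)ˣ, (s.map fun x => ((t : ZMod m) * x).val).sum = k * m ∨
    (s.map fun x => ((t : ZMod m) * x).val).sum = (k + 1) * m

/-- A stable tuple of integers: an odd number `2 * j + 1` of nonzero integers with sum zero such
that for every real `c` for which no `c * n`, `n ∈ q`, is an integer the fractional parts of the
`c * n` have sum `j` or `j + 1`. -/
def IsStable (q : Multiset ℤ) : Prop :=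
  (0 : ℤ) ∉ q ∧ q.sum = 0 ∧ ∃ j : ℕ, Multiset.card q = 2 * j + 1 ∧
    ∀ c : ℝ, (∀ n ∈ q, ∀ z : ℤ, c * n ≠ z) →
      (q.map fun n : ℤ => Int.fract (c * n)).sum = j ∨
      (q.map fun n : ℤ => Int.fract (c * n)).sum = j + 1

/-- Classification of the characters of Hodge level at most one of the Fermat varieties of any
fixed odd dimension, in all degrees without small prime factors. -/
theorem result (k : ℕ) : ∃ P H : ℕ, ∀ m : ℕ, (∀ p : ℕ, p.Prime → p ∣ m → P < p) →
    ∀ s : Multiset (ZMod m), IsCharacter m k s →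
      (LevelOne m k s ↔ ∃ s' u : Multiset (ZMod m), s = s' + (u + u.map Neg.neg) ∧
        (Multiset.card s' = 3 ∨ (∃ x y : ZMod m, s' = {2 * x, -x, 2 * y, -y, -(x + y)}) ∨
          ∃ (q : Multiset ℤ) (t : ZMod m), IsStable q ∧ (∀ n ∈ q, |n| ≤ H) ∧
            s' = q.map fun n : ℤ => (n : ZMod m) * t)) := by
  obtain ⟨P, H, h⟩ := Pool.Agent.LevelOne.classify_iff k
  exact ⟨P, H, fun m hm s hs => h m hm s hs.1 hs.2.1 hs.2.2⟩

end Pool.Agent.Results.MP_386e47_ag.LevelOneFermat
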